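import Mathlib

/-! Continuous cohomology of discrete modules over a compact group: cochain calculus. -/

set_option autoImplicit false
set_option linter.unusedSectionVars false

open CategoryTheory Limits TopRep Topology

namespace Pool.Agent.Lib.MP_0f87c6_ag

set_option backward.isDefEq.respectTransparency false in
lemma subsingleton_homology_iff {R : Type} [Ring R] [TopologicalSpace R]
    (S : ShortComplex (TopModuleCat.{0} R)) :
    Subsingleton (S.homology : TopModuleCat.{0} R) ↔ ∀ x, S.g.hom x = 0 → ∃ y, S.f.hom y = x := by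
  let D₁ : S.LeftHomologyData := ⟨_, _, _, _, _, TopModuleCat.isLimitKer _, by simp,
    TopModuleCat.isColimitCoker _⟩
  have e : (S.homology : TopModuleCat.{0} R) ≃ D₁.H :=
    ((forget (TopModuleCat.{0} R)).mapIso D₁.homologyIso).toEquiv
  rw [e.subsingleton_congr]
  change Subsingleton (S.g.hom.ker ⧸ _) ↔ _
  rw [Submodule.Quotient.subsingleton_iff, Submodule.eq_top_iff']
  constructor
  · intro h x hx
    obtain ⟨y, hy⟩ := h ⟨x, hx⟩
    exact ⟨y, congrArg Subtype.val hy⟩
  · intro h x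
    obtain ⟨y, hy⟩ := h x.1 x.2
    exact ⟨y, Subtype.ext hy⟩

lemma hom_zero' {R G : Type} [Ring R] [TopologicalSpace R] [Monoid G] {A B : TopRep.{0} R G}
    (f : A ⟶ B) : f.hom 0 = 0 := f.hom.toContinuousLinearMap.map_zero

lemma hom_add' {R G : Type} [Ring R] [TopologicalSpace R] [Monoid G] {A B : TopRep.{0} R G}
    (f : A ⟶ B) (x y : A) : f.hom (x + y) = f.hom x + f.hom y :=
  f.hom.toContinuousLinearMap.map_add x y

variable {G : Type} [Group G] [TopologicalSpace G] [IsTopologicalGroup G]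

/-- Invariant vectors. -/
def Inv (A : TopRep.{0} ℤ G) (x : A) : Prop := ∀ g, A.ρ g x = x

/-- The differential as an additive map. -/
noncomputable def dd (A : TopRep.{0} ℤ G) (n : ℕ) : resolutionX A n →+ resolutionX A (n + 1) where
  toFun := (d A n).hom
  map_zero' := hom_zero' _
  map_add' := hom_add' _

/-- Vanishing of the cohomology in degree `n + 1` in terms of cochains. -/
def Van (A : TopRep.{0} ℤ G) (n : ℕ) : Prop :=
  ∀ x : resolutionX A (n + 2), Inv _ x → dd A (n + 2) x = 0 →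
    ∃ y : resolutionX A (n + 1), Inv _ y ∧ dd A (n + 1) y = x

lemma van_iff (A : TopRep.{0} ℤ G) (n : ℕ) :
    Subsingleton (continuousCohomology (n + 1) A) ↔ Van A n := by
  have e : (continuousCohomology (n + 1) A : TopModuleCat.{0} ℤ) ≃
      (((homogeneousCochains A).sc' n (n + 1) (n + 2)).homology : TopModuleCat.{0} ℤ) :=
    ((forget (TopModuleCat.{0} ℤ)).mapIso
      ((homogeneousCochains A).homologyIsoSc' n (n + 1) (n + 2) (by simp) (by simp))).toEquiv
  rw [e.subsingleton_congr, subsingleton_homology_iff]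
  constructor
  · intro h x hx h0
    obtain ⟨y, hy⟩ := h ⟨x, hx⟩ (Subtype.ext ((homogeneousCochains.d_apply A (n + 1) _).trans h0))
    exact ⟨y.1, y.2, (homogeneousCochains.d_apply A n y).symm.trans (congrArg Subtype.val hy)⟩
  · intro h x h0
    obtain ⟨y, hy, e⟩ := h x.1 x.2
      ((homogeneousCochains.d_apply A (n + 1) x).symm.trans (congrArg Subtype.val h0))
    exact ⟨⟨y, hy⟩, Subtype.ext ((homogeneousCochains.d_apply A n _).trans e)⟩

variable {A B C : TopRep.{0} ℤ G}

/-- Evaluation of a cochain in its first variable. -/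
def ev {n : ℕ} (x : resolutionX A (n + 1)) (g : G) : resolutionX A n :=
  (show C(G, resolutionX A n) from x) g

lemma ev_ext {n : ℕ} {x y : resolutionX A (n + 1)} (h : ∀ g, ev x g = ev y g) : x = y :=
  ContinuousMap.ext h

lemma ev_add {n : ℕ} (x y : resolutionX A (n + 1)) (g : G) : ev (x + y) g = ev x g + ev y g := rfl

lemma ev_sub {n : ℕ} (x y : resolutionX A (n + 1)) (g : G) : ev (x - y) g = ev x g - ev y g := rfl

lemma ev_zero {n : ℕ} (g : G) : ev (0 : resolutionX A (n + 1)) g = 0 := rfl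

lemma ev_sum {n : ℕ} {ι : Type} (s : Finset ι) (x : ι → resolutionX A (n + 1)) (g : G) :
    ev (∑ i ∈ s, x i) g = ∑ i ∈ s, ev (x i) g :=
  map_sum (⟨⟨fun x => ev x g, ev_zero g⟩, fun x y => ev_add x y g⟩ :
    resolutionX A (n + 1) →+ resolutionX A n) x s

lemma ev_rho {n : ℕ} (x : resolutionX A (n + 1)) (h g : G) :
    ev ((resolutionX A (n + 1)).ρ h x) g = (resolutionX A n).ρ h (ev x (h⁻¹ * g)) := rfl

lemma ev_dd_zero (a : resolutionX A 0) (g : G) : ev (dd A 0 a) g = a := rfl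

lemma ev_dd {n : ℕ} (x : resolutionX A (n + 1)) (g : G) :
    ev (dd A (n + 1) x) g = x - dd A n (ev x g) := rfl

lemma dd_dd {n : ℕ} (x : resolutionX A n) : dd A (n + 1) (dd A n x) = 0 :=
  congrArg (fun f : resolutionX A n ⟶ resolutionX A (n + 2) => f.hom x) (d_comp_d A n)

lemma Inv.dd {n : ℕ} {x : resolutionX A n} (h : Inv _ x) : Inv _ (dd A n x) := fun g =>
  (hom_comm_apply (d A n) g x).symm.trans (congrArg _ (h g))

lemma Inv.add {x y : A} (hx : Inv A x) (hy : Inv A y) : Inv A (x + y) := fun g => by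
  rw [map_add, hx g, hy g]

lemma Inv.sub {x y : A} (hx : Inv A x) (hy : Inv A y) : Inv A (x - y) := fun g => by
  rw [map_sub, hx g, hy g]

lemma rho_mul (g h : G) (a : A) : A.ρ (g * h) a = A.ρ g (A.ρ h a) := by rw [map_mul]; rfl

lemma rho_one (a : A) : A.ρ 1 a = a := by rw [map_one]; rfl

lemma Inv.ev {n : ℕ} {x : resolutionX A (n + 1)} (h : Inv _ x) (g σ : G) :
    ev x (g * σ) = (resolutionX A n).ρ g (ev x σ) := by
  conv_lhs => rw [← h g, ev_rho, inv_mul_cancel_left]

/-- Discrete modules. -/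
structure Sm (A : TopRep.{0} ℤ G) : Prop where
  disc : DiscreteTopology A
  opn : ∀ a : A, IsOpen {g : G | A.ρ g a = a}

lemma Sm.cont (h : Sm A) (a : A) : Continuous fun g => A.ρ g a := by
  refine IsLocallyConstant.continuous ((IsLocallyConstant.iff_eventually_eq _).2 fun g => ?_)
  have : {u : G | A.ρ (g⁻¹ * u) a = a} ∈ 𝓝 g :=
    ((h.opn a).preimage (continuous_const_mul g⁻¹)).mem_nhds
      (show A.ρ (g⁻¹ * g) a = a by rw [inv_mul_cancel, rho_one])
  filter_upwards [this] with u hu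
  conv_rhs => rw [← hu, ← rho_mul, mul_inv_cancel_left]

lemma finite_range [CompactSpace G] {V : Type} [TopologicalSpace V] [DiscreteTopology V]
    (f : C(G, V)) : (Set.range f).Finite := (isCompact_range f.continuous).finite_of_discrete

lemma Sm.coind [CompactSpace G] (h : Sm A) : Sm A.coind₁ := by
  have := h.disc
  constructor
  · refine discreteTopology_iff_isOpen_singleton.2 fun f => ?_
    change C(G, A) at f
    have e : ({f} : Set C(G, A)) = ⋂ v ∈ Set.range f, {u : C(G, A) | Set.MapsTo u (f ⁻¹' {v}) {v}} := by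
      ext u
      simp only [Set.mem_singleton_iff, Set.mem_iInter, Set.mem_ofPred_eq]
      refine ⟨fun e v _ => e ▸ fun x hx => hx, fun H => ContinuousMap.ext fun x => ?_⟩
      exact H (f x) ⟨x, rfl⟩ rfl
    change IsOpen ({f} : Set C(G, A))
    rw [e]
    exact (finite_range f).isOpen_biInter fun v _ => ContinuousMap.isOpen_setOfPred_mapsTo
      ((isClosed_discrete _).preimage f.continuous).isCompact (isOpen_discrete _)
  · intro f
    change C(G, A) at f
    have h1 : IsOpen {g : G | ∀ x, f (g⁻¹ * x) = f x} := by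
      refine isOpen_iff_mem_nhds.2 fun g hg => ?_
      have := (isCompact_univ (X := G)).eventually_forall_of_forall_eventually (x₀ := g)
        (P := fun u x => f (u⁻¹ * x) = f x) fun x _ => by
          have hc : Continuous fun z : G × G => (f (z.1⁻¹ * z.2), f z.2) := by fun_prop
          exact ((isOpen_discrete {p : A × A | p.1 = p.2}).preimage hc).mem_nhds (hg x)
      filter_upwards [this] with u hu x using hu x trivial
    have h2 : IsOpen (⋂ v ∈ Set.range f, {g : G | A.ρ g v = v}) :=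
      (finite_range f).isOpen_biInter fun v _ => h.opn v
    refine isOpen_iff_mem_nhds.2 fun g hg => ?_
    have h3 : {u : G | g⁻¹ * u ∈ {g : G | ∀ x, f (g⁻¹ * x) = f x} ∩
        ⋂ v ∈ Set.range f, {g : G | A.ρ g v = v}} ∈ 𝓝 g :=
      ((h1.inter h2).preimage (continuous_const_mul g⁻¹)).mem_nhds (by simp)
    filter_upwards [h3] with u hu
    have h4 : A.coind₁.ρ (g⁻¹ * u) f = f := ContinuousMap.ext fun x => by
      change A.ρ _ (f ((g⁻¹ * u)⁻¹ * x)) = _
      rw [hu.1 x]
      exact Set.mem_iInter₂.1 hu.2 _ ⟨x, rfl⟩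
    change A.coind₁.ρ u f = f
    conv_rhs => rw [← show A.coind₁.ρ g f = f from hg, ← h4, ← rho_mul, mul_inv_cancel_left]

lemma Sm.res [CompactSpace G] (h : Sm A) (n : ℕ) : Sm (resolutionX A n) := by
  induction n with
  | zero => exact h
  | succ n ih => exact ih.coind

/-- A map of coefficients acts on cochains. -/
noncomputable def lift (φ : C(A, B)) : ∀ n, C(resolutionX A n, resolutionX B n)
  | 0 => φ
  | n + 1 => ⟨fun f : C(G, resolutionX A n) => (lift φ n).comp f, ContinuousMap.continuous_postcomp _⟩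

lemma ev_lift (φ : C(A, B)) {n : ℕ} (x : resolutionX A (n + 1)) (g : G) :
    ev (lift φ (n + 1) x) g = lift φ n (ev x g) := rfl

/-- All values of a cochain lie in `S`. -/
def In (S : Set A) : ∀ n, resolutionX A n → Prop
  | 0 => fun a => a ∈ S
  | n + 1 => fun x => ∀ g, In S n (ev x g)

lemma In.mono {S T : Set A} (h : S ⊆ T) : ∀ {n} {x : resolutionX A n}, In S n x → In T n x
  | 0, _, hx => h hx
  | _ + 1, _, hx => fun g => In.mono h (hx g)

lemma exists_in [CompactSpace G] (h : Sm A) :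
    ∀ (n) (x : resolutionX A n), ∃ S : Set A, S.Finite ∧ In S n x
  | 0, x => ⟨{x}, Set.finite_singleton _, rfl⟩
  | n + 1, x => by
    have := (h.res n).disc
    choose S h1 h2 using exists_in h n
    refine ⟨⋃ v ∈ Set.range (show C(G, resolutionX A n) from x), S v,
      (finite_range _).biUnion fun v _ => h1 v, fun g => In.mono ?_ (h2 _)⟩
    exact Set.subset_biUnion_of_mem (u := S) ⟨g, rfl⟩

lemma lift_lift {S : Set A} {φ : C(A, B)} {ψ : C(B, A)} (h : ∀ a ∈ S, ψ (φ a) = a) :
    ∀ {n} {x : resolutionX A n}, In S n x → lift ψ n (lift φ n x) = x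
  | 0, x, hx => h x hx
  | _ + 1, _, hx => ev_ext fun g => lift_lift h (hx g)

lemma in_univ : ∀ (n) (x : resolutionX A n), In Set.univ n x
  | 0, _ => trivial
  | n + 1, _ => fun _ => in_univ n _

lemma in_ker {φ : C(A, B)} : ∀ {n} {x : resolutionX A n}, lift φ n x = 0 → In {a | φ a = 0} n x
  | 0, _, hx => hx
  | _ + 1, _, hx => fun g => in_ker (congrArg (ev · g) hx)

lemma lift_zero {φ : C(A, B)} {ψ : C(B, C)} (h : ∀ a, ψ (φ a) = 0) :
    ∀ (n) (x : resolutionX A n), lift ψ n (lift φ n x) = 0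
  | 0, x => h x
  | n + 1, _ => ev_ext fun _ => lift_zero h n _

lemma lift_sub {φ : C(A, B)} (h : ∀ a b, φ (a - b) = φ a - φ b) :
    ∀ (n) (x y : resolutionX A n), lift φ n (x - y) = lift φ n x - lift φ n y
  | 0, x, y => h x y
  | n + 1, _, _ => ev_ext fun _ => lift_sub h n _ _

lemma lift_dd {φ : C(A, B)} (h : ∀ a b, φ (a - b) = φ a - φ b) :
    ∀ (n) (x : resolutionX A n), lift φ (n + 1) (dd A n x) = dd B n (lift φ n x)
  | 0, _ => rfl
  | n + 1, x => ev_ext fun g => by
    rw [ev_lift, ev_dd, ev_dd, lift_sub h, lift_dd h n, ev_lift]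

lemma lift_rho {φ ψ : C(A, B)} {g : G} (h : ∀ a, ψ (A.ρ g a) = B.ρ g (φ a)) :
    ∀ (n) (x : resolutionX A n),
      lift ψ n ((resolutionX A n).ρ g x) = (resolutionX B n).ρ g (lift φ n x)
  | 0, x => h x
  | n + 1, _ => ev_ext fun _ => lift_rho h n _

lemma lift_sum {ι : Type} [Fintype ι] {φ : ι → C(A, A)} (h : ∀ a, ∑ i, φ i a = a) :
    ∀ (n) (x : resolutionX A n), ∑ i, lift (φ i) n x = x
  | 0, x => h x
  | n + 1, _ => ev_ext fun _ => (ev_sum _ _ _).trans (lift_sum h n _)

/-- Equivariant additive maps. -/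
structure Mor (φ : C(A, B)) : Prop where
  sub : ∀ a b, φ (a - b) = φ a - φ b
  eqv : ∀ g a, φ (A.ρ g a) = B.ρ g (φ a)

lemma Mor.inv {φ : C(A, B)} (h : Mor φ) {n : ℕ} {x : resolutionX A n} (hx : Inv _ x) :
    Inv _ (lift φ n x) := fun g => by rw [← lift_rho (h.eqv g), hx g]

lemma Mor.zero {φ : C(A, B)} (h : Mor φ) (n : ℕ) : lift φ n 0 = 0 := by
  simpa using lift_sub h.sub n 0 0

lemma lift_inj (hB : Sm B) {φ : C(A, B)} (hi : Function.Injective φ) (n : ℕ) :
    Function.Injective (lift φ n) := by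
  have := hB.disc
  let r : C(B, A) := ⟨Function.invFun φ, continuous_of_discreteTopology⟩
  intro x y e
  have h : ∀ a ∈ Set.univ, r (φ a) = a := fun a _ => Function.leftInverse_invFun hi a
  rw [← lift_lift h (in_univ n x), e, lift_lift h (in_univ n y)]

lemma Mor.pull (hB : Sm B) {φ : C(A, B)} (h : Mor φ) (hi : Function.Injective φ) {n : ℕ}
    {x : resolutionX B n} (hx : Inv _ x) (hS : In (Set.range φ) n x) :
    ∃ z, Inv _ z ∧ lift φ n z = x := by
  have := hB.disc
  let r : C(B, A) := ⟨Function.invFun φ, continuous_of_discreteTopology⟩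
  have e : lift φ n (lift r n x) = x := lift_lift (fun _ hb => Function.invFun_eq hb) hS
  exact ⟨lift r n x, fun g => lift_inj hB hi n (by rw [lift_rho (h.eqv g), e, hx g]), e⟩

lemma Mor.push [CompactSpace G] (hA : Sm A) (hB : Sm B) {φ : C(A, B)} (h : Mor φ)
    (hs : Function.Surjective φ) {n : ℕ} {x : resolutionX B (n + 1)} (hx : Inv _ x) :
    ∃ z, Inv _ z ∧ lift φ (n + 1) z = x := by
  have := hB.disc
  let s : C(B, A) := ⟨Function.surjInv hs, continuous_of_discreteTopology⟩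
  have e : lift φ n (lift s n (ev x 1)) = ev x 1 :=
    lift_lift (fun b _ => Function.surjInv_eq hs b) (in_univ _ _)
  refine ⟨(⟨fun g => (resolutionX A n).ρ g (lift s n (ev x 1)), (hA.res n).cont _⟩ :
    C(G, resolutionX A n)), fun g => ev_ext fun u => ?_, ev_ext fun u => ?_⟩
  · exact (rho_mul g (g⁻¹ * u) _).symm.trans (by rw [mul_inv_cancel_left]; rfl)
  · refine (lift_rho (h.eqv u) n _).trans ?_
    rw [e, ← hx.ev, mul_one]

/-- Short exact sequences of discrete modules. -/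
structure SES (i : C(A, B)) (p : C(B, C)) : Prop where
  hB : Sm B
  hC : Sm C
  mi : Mor i
  mp : Mor p
  inj : Function.Injective i
  surj : Function.Surjective p
  ex : ∀ b, p b = 0 ↔ b ∈ Set.range i

variable [CompactSpace G] {i : C(A, B)} {p : C(B, C)}

lemma SES.pull (h : SES i p) {n : ℕ} {x : resolutionX B n} (hx : Inv _ x) (h0 : lift p n x = 0) :
    ∃ z, Inv _ z ∧ lift i n z = x :=
  h.mi.pull h.hB h.inj hx (In.mono (fun b hb => (h.ex b).1 hb) (in_ker h0))

lemma van_of_range (hB : Sm B) (mi : Mor i) (hi : Function.Injective i) {n : ℕ} (hA : Van A n)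
    {x : resolutionX B (n + 2)} (hx : Inv _ x) (h0 : dd B (n + 2) x = 0)
    (hS : In (Set.range i) _ x) : ∃ y, Inv _ y ∧ dd B (n + 1) y = x := by
  obtain ⟨z, hz, e⟩ := mi.pull hB hi hx hS
  obtain ⟨w, hw, e'⟩ := hA z hz (lift_inj hB hi _ (by rw [lift_dd mi.sub, e, h0, mi.zero]))
  exact ⟨lift i _ w, mi.inv hw, by rw [← lift_dd mi.sub, e', e]⟩

lemma SES.mid (h : SES i p) {n : ℕ} (hA : Van A n) (hC : Van C n) : Van B n := by
  intro x hx h0
  obtain ⟨y', hy', e'⟩ := hC (lift p _ x) (h.mp.inv hx) (by rw [← lift_dd h.mp.sub, h0, h.mp.zero])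
  obtain ⟨y, hy, e⟩ := h.mp.push h.hB h.hC h.surj hy'
  obtain ⟨w, hw, e''⟩ := van_of_range h.hB h.mi h.inj hA (hx.sub hy.dd)
    (by rw [map_sub, h0, dd_dd, sub_zero]) (In.mono (fun b hb => (h.ex b).1 hb)
      (in_ker (by rw [lift_sub h.mp.sub, lift_dd h.mp.sub, e, e', sub_self])))
  exact ⟨w + y, hw.add hy, by rw [map_add, e'', sub_add_cancel]⟩

lemma SES.left (h : SES i p) {n : ℕ} (hB : Van B (n + 1)) (hC : Van C n) : Van A (n + 1) := by
  intro z hz h0
  obtain ⟨y, hy, e⟩ := hB (lift i _ z) (h.mi.inv hz) (by rw [← lift_dd h.mi.sub, h0, h.mi.zero])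
  obtain ⟨w', hw', e'⟩ := hC (lift p _ y) (h.mp.inv hy) (by
    rw [← lift_dd h.mp.sub, e]; exact lift_zero (fun a => (h.ex _).2 ⟨a, rfl⟩) _ _)
  obtain ⟨w, hw, e''⟩ := h.mp.push h.hB h.hC h.surj hw'
  obtain ⟨u, hu, e3⟩ := h.pull (hy.sub hw.dd)
    (by rw [lift_sub h.mp.sub, lift_dd h.mp.sub, e'', e', sub_self])
  exact ⟨u, hu, lift_inj h.hB h.inj _ (by rw [lift_dd h.mi.sub, e3, map_sub, dd_dd, sub_zero, e])⟩

/-- Averaging over a finite quotient. -/
lemma van_of_avg (hA : Sm A) (h : ∀ U ∈ 𝓝 (1 : G), ∃ (Γ : Type) (_ : Group Γ) (_ : Fintype Γ)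
    (q : G →* Γ) (c : Γ → A →+ A), Function.Surjective q ∧ (∀ g, q g = 1 → g ∈ U) ∧
      (∀ τ γ a, c (q τ * γ) (A.ρ τ a) = A.ρ τ (c γ a)) ∧ ∀ a, ∑ γ, c γ a = a) (n : ℕ) :
    Van A n := by
  intro x hx h0
  have := hA.disc
  obtain ⟨Γ, _, _, q, c, hq, hU, h1, h2⟩ := h _
    (((hA.res (n + 1)).opn (ev x 1)).mem_nhds (rho_one _))
  let c' : Γ → C(A, A) := fun γ => ⟨c γ, continuous_of_discreteTopology⟩
  have hk : ∀ g g', q g = q g' → ev x g = ev x g' := fun g g' e => by
    have : (resolutionX A (n + 1)).ρ (g⁻¹ * g') (ev x 1) = ev x 1 := hU _ (by simp [e])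
    rw [← mul_one g, hx.ev, ← this, ← rho_mul, mul_inv_cancel_left, ← hx.ev, mul_one]
  refine ⟨∑ γ, lift (c' γ) _ (ev x (Function.surjInv hq γ)), fun τ => ?_, ?_⟩
  · rw [map_sum, ← Equiv.sum_comp (Equiv.mulLeft (q τ))
      fun γ => lift (c' γ) _ (ev x (Function.surjInv hq γ))]
    refine Finset.sum_congr rfl fun γ _ => ?_
    rw [← lift_rho (ψ := c' (q τ * γ)) (h1 τ γ), ← hx.ev]
    exact congrArg _ (hk _ _ (by simp [Function.surjInv_eq]))
  · rw [map_sum]
    refine Eq.trans (Finset.sum_congr rfl fun γ _ => ?_) (lift_sum (φ := c') h2 _ x)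
    rw [← lift_dd (φ := c' γ) (map_sub (c γ))]
    exact congrArg _ (sub_eq_zero.1 (congrArg (ev · (Function.surjInv hq γ)) h0)).symm

end Pool.Agent.Lib.MP_0f87c6_ag
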