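import Pool.Agent.Lib.MP_0f87c6_ag.Fld

/-! The example. -/

set_option autoImplicit false

namespace Pool.Agent.Lib.MP_0f87c6_ag

/-- The coefficient array of the binary form with all coefficients one. -/
def nn (R : Type) [CommRing R] : Fin 2 → Fin 2 → R := ![![1, 1], ![0, 1]]

lemma Qf_nn {R : Type} [CommRing R] (x : Fin 2 → R) :
    Qf (nn R) x = x 0 ^ 2 + x 0 * x 1 + x 1 ^ 2 := by
  simp [Qf, nn, Fin.sum_univ_two]; ring

lemma map_nn {R S : Type} [CommRing R] [CommRing S] (φ : R →+* S) :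
    (fun i j => φ (nn R i j)) = nn S := by
  funext i j
  fin_cases i <;> fin_cases j <;> simp [nn]

/-- The quaternary form. -/
def n4 {R : Type} [CommRing R] (s : R) : Fin 4 → Fin 4 → R :=
  ![![1, 1, 0, 0], ![0, 1, 0, 0], ![0, 0, s, s], ![0, 0, 0, s]]

lemma Qf_n4 {R : Type} [CommRing R] (s : R) (x : Fin 4 → R) : Qf (n4 s) x =
    x 0 ^ 2 + x 0 * x 1 + x 1 ^ 2 + s * (x 2 ^ 2 + x 2 * x 3 + x 3 ^ 2) := by
  simp [Qf, n4, Fin.sum_univ_four]; ring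

lemma map_n4 {R S : Type} [CommRing R] [CommRing S] (φ : R →+* S) (s : R) :
    (fun i j => φ (n4 s i j)) = n4 (φ s) := by
  funext i j
  fin_cases i <;> fin_cases j <;> simp [n4]

/-- The senary form. -/
def n6 {R : Type} [CommRing R] (s t : R) : Fin 6 → Fin 6 → R :=
  ![![1, 1, 0, 0, 0, 0], ![0, 1, 0, 0, 0, 0], ![0, 0, s, s, 0, 0], ![0, 0, 0, s, 0, 0],
    ![0, 0, 0, 0, t, t], ![0, 0, 0, 0, 0, t]]

lemma Qf_n6 {R : Type} [CommRing R] (s t : R) (x : Fin 6 → R) : Qf (n6 s t) x =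
    x 0 ^ 2 + x 0 * x 1 + x 1 ^ 2 + s * (x 2 ^ 2 + x 2 * x 3 + x 3 ^ 2) +
      t * (x 4 ^ 2 + x 4 * x 5 + x 5 ^ 2) := by
  simp [Qf, n6, Fin.sum_univ_six]; ring

lemma map_n6 {R S : Type} [CommRing R] [CommRing S] (φ : R →+* S) (s t : R) :
    (fun i j => φ (n6 s t i j)) = n6 (φ s) (φ t) := by
  funext i j
  fin_cases i <;> fin_cases j <;> simp [n6]

lemma an2 : ∀ x, Qf (nn (ZMod 2)) x = 0 → x = 0 := by
  simp only [Qf_nn]
  decide

lemma an4 : ∀ x, Qf (n4 (RatFunc.X : RatFunc (ZMod 2))) x = 0 → x = 0 := fun x h => by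
  obtain ⟨h1, h2⟩ := aniso_ratFunc an2 an2 ![x 0, x 1] ![x 2, x 3] (by
    rw [map_nn, Qf_nn, Qf_nn, ← h, Qf_n4]; simp)
  funext i
  fin_cases i
  exacts [congrFun h1 0, congrFun h1 1, congrFun h2 0, congrFun h2 1]

lemma an2' : ∀ x, Qf (nn (RatFunc (ZMod 2))) x = 0 → x = 0 := fun x h => by
  have := an4 ![x 0, x 1, 0, 0] (by rw [Qf_nn] at h; rw [Qf_n4]; simpa using h)
  funext i
  fin_cases i
  exacts [congrFun this 0, congrFun this 1]

lemma an6 : ∀ x, Qf (n6 (RatFunc.C (RatFunc.X : RatFunc (ZMod 2)))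
    (RatFunc.X : RatFunc (RatFunc (ZMod 2)))) x = 0 →
    x = 0 := fun x h => by
  obtain ⟨h1, h2⟩ := aniso_ratFunc an4 an2' ![x 0, x 1, x 2, x 3] ![x 4, x 5] (by
    rw [map_nn, map_n4, Qf_nn, Qf_n4, ← h, Qf_n6]; simp)
  funext i
  fin_cases i
  exacts [congrFun h1 0, congrFun h1 1, congrFun h1 2, congrFun h1 3, congrFun h2 0, congrFun h2 1]

lemma exists_field : ∃ (k : Type) (_ : Field k) (_ : CharP k 2) (s t : k),
    (∀ x, Qf (n6 s t) x = 0 → x = 0) ∧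
      ∀ p : Polynomial k, Irreducible p → Odd p.natDegree → p.natDegree = 1 := by
  obtain ⟨E, h1, h2⟩ := exists_closed an6
  rw [map_n6] at h1
  exact ⟨E, inferInstance, charP_of_injective_algebraMap
    (algebraMap (RatFunc (RatFunc (ZMod 2))) E).injective 2, _, _, h1, h2⟩

lemma block {K : Type} [Field K] {c u v : K} (hc : c ≠ 0) (h1 : u * v = 0)
    (h2 : c * (u ^ 2 + u * v + v ^ 2) = 0) : u = 0 ∧ v = 0 := by
  have h3 := (mul_eq_zero.1 h2).resolve_left hc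
  rcases mul_eq_zero.1 h1 with rfl | rfl
  · exact ⟨rfl, by simpa using h3⟩
  · exact ⟨by simpa using h3, rfl⟩

lemma smooth_aux {K : Type} [Field K] {s t a b : K} (hs : s ≠ 0) (ht : t ≠ 0) (hs1 : s ≠ 1)
    (ht1 : t ≠ 1) (hst : s ≠ t) {x : Fin 6 → K} (hx : x ≠ 0) (hf : Qf (n6 s t) x = 0)
    (hg : x 0 * x 1 + x 2 * x 3 + x 4 * x 5 = 0) (e0 : (a + b) * x 0 = 0) (e1 : (a + b) * x 1 = 0)
    (e2 : (a * s + b) * x 2 = 0) (e3 : (a * s + b) * x 3 = 0) (e4 : (a * t + b) * x 4 = 0)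
    (e5 : (a * t + b) * x 5 = 0) : a = 0 ∧ b = 0 := by
  by_contra hab
  have key : ∀ {u v : K}, u ≠ v → a * u + b = 0 → a * v + b ≠ 0 := fun {u v} h h1 h2 => by
    have ha : a = 0 := (mul_eq_zero.1 (show a * (u - v) = 0 by linear_combination h1 - h2)
      ).resolve_right (sub_ne_zero.2 h)
    exact hab ⟨ha, by simpa [ha] using h1⟩
  rw [Qf_n6] at hf
  have z : ∀ {c y : K}, c ≠ 0 → c * y = 0 → y = 0 := fun h h' => (mul_eq_zero.1 h').resolve_left h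
  have fin : x 0 = 0 ∧ x 1 = 0 → x 2 = 0 ∧ x 3 = 0 → x 4 = 0 ∧ x 5 = 0 → False := fun p q r =>
    hx (by funext i; fin_cases i; exacts [p.1, p.2, q.1, q.2, r.1, r.2])
  rw [← mul_one a] at e0 e1
  by_cases c1 : a * 1 + b = 0
  · have p : x 2 = 0 ∧ x 3 = 0 := ⟨z (key hs1.symm c1) e2, z (key hs1.symm c1) e3⟩
    have q : x 4 = 0 ∧ x 5 = 0 := ⟨z (key ht1.symm c1) e4, z (key ht1.symm c1) e5⟩
    exact fin (block one_ne_zero (by simpa [p, q] using hg) (by simpa [p, q] using hf)) p q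
  have p : x 0 = 0 ∧ x 1 = 0 := ⟨z c1 e0, z c1 e1⟩
  by_cases c2 : a * s + b = 0
  · have q : x 4 = 0 ∧ x 5 = 0 := ⟨z (key hst c2) e4, z (key hst c2) e5⟩
    exact fin p (block hs (by simpa [p, q] using hg) (by simpa [p, q] using hf)) q
  · have q : x 2 = 0 ∧ x 3 = 0 := ⟨z c2 e2, z c2 e3⟩
    exact fin p q (block ht (by simpa [p, q] using hg) (by simpa [p, q] using hf))

end Pool.Agent.Lib.MP_0f87c6_ag
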