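import Mathlib

/-! Anisotropic quadratic forms: rational function fields, the theorem of Springer, and a maximal
algebraic extension over which a form stays anisotropic. -/

set_option autoImplicit false

open Polynomial

namespace Pool.Agent.Lib.MP_0f87c6_ag

variable {ι : Type} [Fintype ι]

/-- The quadratic form with coefficient array `a`. -/
def Qf {R : Type} [CommRing R] (a : ι → ι → R) (x : ι → R) : R := ∑ i, ∑ j, a i j * x i * x j

lemma map_Qf {R S : Type} [CommRing R] [CommRing S] (φ : R →+* S) (a : ι → ι → R) (x : ι → R) :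
    φ (Qf a x) = Qf (fun i j => φ (a i j)) fun i => φ (x i) := by
  simp [Qf]

lemma Qf_mul {R : Type} [CommRing R] (a : ι → ι → R) (r : R) (x : ι → R) :
    Qf a (fun i => r * x i) = r ^ 2 * Qf a x := by
  simp only [Qf, Finset.mul_sum]
  exact Finset.sum_congr rfl fun i _ => Finset.sum_congr rfl fun j _ => by ring

variable {F : Type} [Field F] {a : ι → ι → F}

lemma deg_Qf (ha : ∀ x, Qf a x = 0 → x = 0) {u : ι → F[X]} (hu : u ≠ 0) :
    Qf (fun i j => C (a i j)) u ≠ 0 ∧
      (Qf (fun i j => C (a i j)) u).natDegree = 2 * Finset.univ.sup fun i => (u i).natDegree := by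
  set D := Finset.univ.sup fun i => (u i).natDegree with hD
  have h1 : ∀ i, (u i).natDegree ≤ D := fun i =>
    Finset.le_sup (f := fun i => (u i).natDegree) (Finset.mem_univ i)
  have h2 : (Qf (fun i j => C (a i j)) u).coeff (2 * D) = Qf a fun i => (u i).coeff D := by
    simp only [Qf, finsetSum_coeff, mul_assoc, coeff_C_mul, two_mul,
      coeff_mul_add_eq_of_natDegree_le (h1 _) (h1 _)]
  have h3 : (fun i => (u i).coeff D) ≠ 0 := by
    obtain ⟨i, hi⟩ := Function.ne_iff.1 hu
    obtain ⟨j, -, hj⟩ := Finset.exists_mem_eq_sup Finset.univ ⟨i, Finset.mem_univ i⟩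
      fun i => (u i).natDegree
    intro e
    by_cases h0 : D = 0
    · refine hi (leadingCoeff_eq_zero.1 ?_)
      rw [leadingCoeff, Nat.le_antisymm (h1 i) (h0 ▸ Nat.zero_le _)]
      exact congrFun e i
    · have : u j = 0 := leadingCoeff_eq_zero.1 (by
        rw [leadingCoeff, ← hj]; exact congrFun e j)
      exact h0 (by rw [hD, hj, this, natDegree_zero])
  have h4 : (Qf (fun i j => C (a i j)) u).coeff (2 * D) ≠ 0 := fun e => h3 (ha _ (h2 ▸ e))
  refine ⟨fun e => h4 (by rw [e, coeff_zero]), le_antisymm ?_ (le_natDegree_of_ne_zero h4)⟩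
  refine natDegree_sum_le_of_forall_le _ _ fun i _ => natDegree_sum_le_of_forall_le _ _
    fun j _ => ?_
  rw [mul_assoc]
  refine (natDegree_C_mul_le _ _).trans (natDegree_mul_le.trans ?_)
  have := h1 i
  have := h1 j
  omega

lemma exists_odd_factor (n : ℕ) : ∀ h : F[X], h.natDegree = n → Odd n →
    ∃ r : F[X], Irreducible r ∧ Odd r.natDegree ∧ r ∣ h := by
  induction n using Nat.strong_induction_on with
  | _ n ih =>
  intro h hn ho
  have h0 : 0 < h.natDegree := hn ▸ ho.pos
  obtain ⟨r, hr, s, rfl⟩ := exists_irreducible_of_natDegree_pos h0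
  have hs : s ≠ 0 := by rintro rfl; simp at h0
  rw [natDegree_mul hr.ne_zero hs] at hn
  rcases Nat.even_or_odd r.natDegree with he | he
  · have := hr.natDegree_pos
    obtain ⟨r', h1, h2, h3⟩ := ih s.natDegree (by omega) s rfl (by
      obtain ⟨x, hx⟩ := he
      obtain ⟨y, hy⟩ := ho
      exact ⟨y - x, by omega⟩)
    exact ⟨r', h1, h2, h3.mul_left _⟩
  · exact ⟨r, hr, he, dvd_mul_right _ _⟩

/-- The theorem of Springer. -/
lemma springer (ha : ∀ x, Qf a x = 0 → x = 0) (n : ℕ) : ∀ p : F[X], Irreducible p →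
    p.natDegree = n → Odd n → ∀ u : ι → F[X], p ∣ Qf (fun i j => C (a i j)) u → ∀ i, p ∣ u i := by
  induction n using Nat.strong_induction_on with
  | _ n ih =>
  intro p hp hn ho
  have key : ∀ (D : ℕ) (u : ι → F[X]), (Finset.univ.sup fun i => (u i).natDegree) = D → D < n →
      p ∣ Qf (fun i j => C (a i j)) u → u = 0 := by
    intro D
    induction D using Nat.strong_induction_on with
    | _ D ihD =>
    rintro u hD hlt ⟨h, hh⟩
    by_contra hu
    obtain ⟨h1, h2⟩ := deg_Qf ha hu
    have h0 : h ≠ 0 := by rintro rfl; exact h1 (by rw [hh, mul_zero])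
    rw [hD, hh, natDegree_mul hp.ne_zero h0, hn] at h2
    obtain ⟨r, hr, hr', hd⟩ := exists_odd_factor _ h rfl (by
      obtain ⟨y, hy⟩ := ho
      exact ⟨D - y - 1, by omega⟩)
    have h3 := natDegree_le_of_dvd hd h0
    choose v hv using ih r.natDegree (by omega) r hr rfl hr' u (hh ▸ hd.mul_left _)
    have h4 : u = fun i => r * v i := funext hv
    have hv0 : v ≠ 0 := by rintro rfl; exact hu (by rw [h4]; ext; simp)
    have h5 := (deg_Qf ha hv0)
    have h6 : p * h = r ^ 2 * Qf (fun i j => C (a i j)) v := by rw [← hh, h4, Qf_mul]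
    have h7 := congrArg natDegree h6
    rw [natDegree_mul hp.ne_zero h0, natDegree_mul (pow_ne_zero _ hr.ne_zero) h5.1, natDegree_pow,
      h5.2, hn] at h7
    have h8 := hr.natDegree_pos
    refine hv0 (ihD _ (by omega) v rfl (by omega) ?_)
    refine (hp.prime.dvd_or_dvd (h6 ▸ dvd_mul_right p h)).resolve_left fun e => ?_
    have := natDegree_le_of_dvd (hp.prime.dvd_of_dvd_pow e) hr.ne_zero
    omega
  intro u hu i
  have h1 : (fun i => u i % p) = 0 := by
    refine key _ _ rfl ?_ ?_
    · refine (Finset.sup_lt_iff ho.pos).2 fun i _ => ?_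
      rw [← hn]
      exact natDegree_mod_lt _ (by rw [hn]; exact ho.pos.ne')
    · rw [← AdjoinRoot.mk_eq_zero, map_Qf] at hu ⊢
      rw [← hu]
      congr 1
      funext i
      exact AdjoinRoot.mk_eq_mk.2 ⟨-(u i / p), by
        linear_combination EuclideanDomain.div_add_mod (u i) p⟩
  exact EuclideanDomain.mod_eq_zero.1 (congrFun h1 i)

lemma aniso_ratFunc {κ : Type} [Fintype κ] {b : κ → κ → F} (ha : ∀ x, Qf a x = 0 → x = 0)
    (hb : ∀ x, Qf b x = 0 → x = 0) (x : ι → RatFunc F) (y : κ → RatFunc F)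
    (h : Qf (fun i j => RatFunc.C (a i j)) x + RatFunc.X * Qf (fun i j => RatFunc.C (b i j)) y = 0) :
    x = 0 ∧ y = 0 := by
  obtain ⟨s, hs⟩ := IsLocalization.exist_integer_multiples_of_finite (nonZeroDivisors F[X])
    (Sum.elim x y)
  choose w hw using hs
  have hs0 : algebraMap F[X] (RatFunc F) s ≠ 0 :=
    (map_ne_zero_iff _ (IsFractionRing.injective _ _)).2 (nonZeroDivisors.coe_ne_zero s)
  simp only [Algebra.smul_def] at hw
  have h1 : Qf (fun i j => C (a i j)) (fun i => w (.inl i)) =
      -X * Qf (fun i j => C (b i j)) fun i => w (.inr i) := by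
    refine IsFractionRing.injective F[X] (RatFunc F) ?_
    simp only [map_mul, map_neg, map_Qf, hw, Qf_mul, RatFunc.algebraMap_C, RatFunc.algebraMap_X,
      Sum.elim_inl, Sum.elim_inr]
    linear_combination (algebraMap F[X] (RatFunc F) s) ^ 2 * h
  have h2 : (fun i => w (.inl i)) = 0 ∧ (fun i => w (.inr i)) = 0 := by
    by_cases h2 : (fun i => w (.inr i)) = 0
    · refine ⟨by_contra fun h3 => (deg_Qf ha h3).1 ?_, h2⟩
      rw [h1, h2]; simp [Qf]
    · have h4 := deg_Qf hb h2
      have h5 : (fun i => w (.inl i)) ≠ 0 := fun e => h4.1 (by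
        rw [e] at h1
        simpa [Qf, X_ne_zero] using h1)
      have h6 := (deg_Qf ha h5).2
      rw [h1, natDegree_mul (neg_ne_zero.2 X_ne_zero) h4.1, h4.2, natDegree_neg, natDegree_X] at h6
      omega
  constructor
  · funext i
    have := hw (.inl i)
    rw [show w (.inl i) = 0 from congrFun h2.1 i, map_zero] at this
    exact (mul_eq_zero.1 this.symm).resolve_left hs0
  · funext i
    have := hw (.inr i)
    rw [show w (.inr i) = 0 from congrFun h2.2 i, map_zero] at this
    exact (mul_eq_zero.1 this.symm).resolve_left hs0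

lemma exists_closed (ha : ∀ x, Qf a x = 0 → x = 0) :
    ∃ E : IntermediateField F (AlgebraicClosure F),
      (∀ x : ι → E, Qf (fun i j => algebraMap F E (a i j)) x = 0 → x = 0) ∧
      ∀ p : E[X], Irreducible p → Odd p.natDegree → p.natDegree = 1 := by
  classical
  let Ω := AlgebraicClosure F
  let S : Set (IntermediateField F Ω) := {E | ∀ x : ι → Ω, (∀ i, x i ∈ E) →
    Qf (fun i j => algebraMap F Ω (a i j)) x = 0 → x = 0}
  have hb : ⊥ ∈ S := fun x hx h => by
    choose y hy using fun i => IntermediateField.mem_bot.1 (hx i)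
    have : y = 0 := ha y ((algebraMap F Ω).injective (by rw [map_Qf, map_zero, ← h]; simp [hy]))
    funext i
    rw [← hy, this]; simp
  obtain ⟨E, -, hE⟩ := zorn_le_nonempty₀ S (fun c hc hch E hE => by
    have : Nonempty c := ⟨⟨E, hE⟩⟩
    have hd : Directed (· ≤ ·) fun E : c => E.1 := directedOn_iff_directed.1 hch.directedOn
    refine ⟨⨆ E : c, E.1, fun x hx => ?_, fun z hz => le_iSup (fun E : c => E.1) ⟨z, hz⟩⟩
    have h1 : ∀ i, ∃ E : c, x i ∈ E.1 := fun i => by
      have := hx i
      rwa [← SetLike.mem_coe, IntermediateField.coe_iSup_of_directed hd, Set.mem_iUnion] at this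
    choose G hG using h1
    obtain ⟨z, hz⟩ := hd.finset_le (Finset.univ.image G)
    exact hc z.2 x fun i => hz (G i) (Finset.mem_image_of_mem _ (Finset.mem_univ i)) (hG i)) ⊥ hb
  have h1 : ∀ x : ι → E, Qf (fun i j => algebraMap F E (a i j)) x = 0 → x = 0 := fun x h => by
    have := hE.prop (fun i => x i) (fun i => (x i).2) (by
      have := congrArg (algebraMap E Ω) h
      rwa [map_Qf, map_zero] at this)
    funext i
    exact Subtype.ext (congrFun this i)
  refine ⟨E, h1, fun p hp ho => ?_⟩
  obtain ⟨α, hα⟩ := IsAlgClosed.exists_aeval_eq_zero Ω p (degree_pos_of_irreducible hp).ne'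
  have hi : IsAlgebraic E α := ⟨p, hp.ne_zero, hα⟩
  have h2 : (IntermediateField.adjoin E {α}).restrictScalars F ∈ S := fun x hx h => by
    have h3 : ∀ i, ∃ u : E[X], aeval α u = x i := fun i => by
      have : x i ∈ (IntermediateField.adjoin E {α}).toSubalgebra := hx i
      rwa [IntermediateField.adjoin_simple_toSubalgebra_of_isAlgebraic hi,
        Algebra.adjoin_singleton_eq_range_aeval] at this
    choose u hu using h3
    have h4 := springer h1 _ p hp rfl ho u ((hp.dvd_iff_aeval_eq_zero hα).1 (by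
      rw [← h]
      refine (map_Qf (aeval α : E[X] →ₐ[E] Ω).toRingHom _ _).trans ?_
      simp [hu]))
    funext i
    rw [← hu]
    exact (hp.dvd_iff_aeval_eq_zero hα).2 (h4 i)
  have h5 : α ∈ E := hE.le_of_ge h2 (fun x hx =>
    (IntermediateField.adjoin E {α}).algebraMap_mem ⟨x, hx⟩)
    (IntermediateField.mem_adjoin_simple_self E α)
  refine natDegree_eq_of_degree_eq_some (degree_eq_one_of_irreducible_of_root hp (x := ⟨α, h5⟩) ?_)
  refine (algebraMap E Ω).injective ?_
  rw [map_zero, ← hα, ← aeval_algebraMap_apply_eq_algebraMap_eval]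
  rfl

end Pool.Agent.Lib.MP_0f87c6_ag
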