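import Pool.Agent.Lib.MP_0f87c6_ag.Pro

/-! Galois cohomology in characteristic two. -/

set_option autoImplicit false

open CategoryTheory TopRep Topology Polynomial

namespace Pool.Agent.Lib.MP_0f87c6_ag

variable {k K : Type} [Field k] [Field K] [Algebra k K] [IsSepClosure k K]

lemma card_gal (hodd : ∀ p : k[X], Irreducible p → Odd p.natDegree → p.natDegree = 1)
    (L : Type) [Field L] [Algebra k L] [FiniteDimensional k L] [IsGalois k L] :
    ∃ s, Nat.card Gal(L/k) = 2 ^ s := by
  obtain ⟨P⟩ : Nonempty (Sylow 2 Gal(L/k)) := inferInstance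
  obtain ⟨s, hs⟩ := P.isPGroup'.exists_card_eq
  refine ⟨s, ?_⟩
  let E := IntermediateField.fixedField (P : Subgroup Gal(L/k))
  have h1 : Module.finrank k E * Nat.card P = Nat.card Gal(L/k) := by
    rw [IsGalois.card_aut_eq_finrank, ← IntermediateField.finrank_fixedField_eq_card,
      Module.finrank_mul_finrank]
  have h2 : Module.finrank k E = (P : Subgroup Gal(L/k)).index :=
    Nat.eq_of_mul_eq_mul_right Nat.card_pos (h1.trans (Subgroup.index_mul_card _).symm)
  obtain ⟨a, ha⟩ := Field.exists_primitive_element k E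
  have h3 : (minpoly k a).natDegree = Module.finrank k E :=
    (Field.primitive_element_iff_minpoly_natDegree_eq k a).1 ha
  have h4 := hodd _ (minpoly.irreducible (Algebra.IsIntegral.isIntegral a)) (by
    rw [h3, h2, ← Nat.not_even_iff_odd, even_iff_two_dvd]; exact P.not_dvd_index)
  rw [← h1, ← h3, h4, one_mul, hs]

lemma p2_gal (hodd : ∀ p : k[X], Irreducible p → Odd p.natDegree → p.natDegree = 1) :
    P2 Gal(K/k) := by
  intro U hU
  obtain ⟨L, hL⟩ := (InfiniteGalois.krullTopology_mem_nhds_one_iff_of_isGalois U).1 hU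
  obtain ⟨s, hs⟩ := card_gal hodd L
  refine ⟨Gal(L/k), inferInstance, inferInstance, AlgEquiv.restrictNormalHom L, s,
    AlgEquiv.restrictNormalHom_surjective K, fun g hg => hL ?_, by
      rw [← Nat.card_eq_fintype_card, hs]⟩
  rw [← IntermediateField.restrictNormalHom_ker]
  exact hg

variable (k K) in
/-- The additive group of the separable closure. -/
noncomputable def KRep : TopRep.{0} ℤ Gal(K/k) :=
  mkRep K (fun g => (g : K →+ K)) (fun _ => rfl) fun _ _ _ => rfl

lemma sm_KRep : Sm (KRep k K) :=
  ⟨mkRep_disc .., fun a => stabilizer_isOpen_of_isIntegral (K := k) (L := K) a⟩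

lemma van_KRep (n : ℕ) : Van (KRep k K) n := by
  refine van_of_avg sm_KRep (fun U hU => ?_) n
  obtain ⟨L, hL⟩ := (InfiniteGalois.krullTopology_mem_nhds_one_iff_of_isGalois U).1 hU
  obtain ⟨θ, hθ⟩ := Algebra.trace_surjective k L 1
  refine ⟨Gal(L/k), inferInstance, inferInstance, AlgEquiv.restrictNormalHom L,
    fun γ => AddMonoidHom.mulLeft (algebraMap L K (γ θ)),
    AlgEquiv.restrictNormalHom_surjective K, fun g hg => hL ?_, fun τ γ a => ?_, fun a => ?_⟩
  · rw [← IntermediateField.restrictNormalHom_ker]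
    exact hg
  · change K at a
    change algebraMap L K (τ.restrictNormal L (γ θ)) * τ a = τ (algebraMap L K (γ θ) * a)
    rw [AlgEquiv.restrictNormal_commutes, map_mul]
  · change K at a
    change ∑ γ : Gal(L/k), algebraMap L K (γ θ) * a = a
    rw [← Finset.sum_mul, ← map_sum, ← trace_eq_sum_automorphisms, hθ]
    simp

variable [CharP k 2]

lemma van_T2 (n : ℕ) : Van (T2 Gal(K/k)) (n + 1) := by
  have : CharP K 2 := charP_of_injective_algebraMap (algebraMap k K).injective 2
  have := IsSepClosure.sep_closed k (K := K)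
  have := (sm_T2 (G := Gal(K/k))).disc
  have := (sm_KRep (k := k) (K := K)).disc
  have hc : ∀ z : ZMod 2, z = 0 ∨ z = 1 := by decide
  have h2 : (2 : K) = 0 := CharTwo.two_eq_zero
  let i : ZMod 2 →+* K := ZMod.castHom dvd_rfl K
  have hs : SES (A := T2 Gal(K/k)) (B := KRep k K) (C := KRep k K)
      ⟨i, continuous_of_discreteTopology⟩
      ⟨fun x : K => x ^ 2 + x, continuous_of_discreteTopology⟩ := by
    refine ⟨sm_KRep, sm_KRep, ⟨map_sub i, fun g z => ?_⟩, ⟨fun a b => ?_, fun g a => ?_⟩,
      i.injective, fun b => ?_, fun b => ?_⟩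
    · change ZMod 2 at z
      change i z = g (i z)
      rcases hc z with rfl | rfl <;> simp
    · change K at a b
      change (a - b) ^ 2 + (a - b) = a ^ 2 + a - (b ^ 2 + b)
      linear_combination (b ^ 2 - a * b) * h2
    · change K at a
      change g a ^ 2 + g a = g (a ^ 2 + a)
      simp
    · change K at b
      obtain ⟨x, hx⟩ := IsSepClosed.exists_root_C_mul_X_pow_add_C_mul_X_add_C' (k := K) 2 2 1 1 (-b)
        dvd_rfl le_rfl one_ne_zero
      exact ⟨x, by change x ^ 2 + x = b; linear_combination hx⟩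
    · change K at b
      change b ^ 2 + b = 0 ↔ b ∈ Set.range i
      constructor
      · intro h
        rcases mul_eq_zero.1 (show b * (b - 1) = 0 by linear_combination h - b * h2) with h | h
        · exact ⟨0, by rw [map_zero, h]⟩
        · exact ⟨1, by rw [map_one, sub_eq_zero.1 h]⟩
      · rintro ⟨z, rfl⟩
        rcases hc z with rfl | rfl
        · simp
        · rw [map_one]; linear_combination h2
  exact hs.left (van_KRep _) (van_KRep _)

lemma not_van_T2 (h : ∀ x : k, x ^ 2 + x + 1 ≠ 0) : ¬Van (T2 Gal(K/k)) 0 := by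
  classical
  have : CharP K 2 := charP_of_injective_algebraMap (algebraMap k K).injective 2
  have := IsSepClosure.sep_closed k (K := K)
  have h2 : (2 : K) = 0 := CharTwo.two_eq_zero
  obtain ⟨w, hw⟩ := IsSepClosed.exists_root_C_mul_X_pow_add_C_mul_X_add_C' (k := K) 2 2 1 1 1
    dvd_rfl le_rfl one_ne_zero
  rw [one_mul, one_mul] at hw
  let i : ZMod 2 →+* K := ZMod.castHom dvd_rfl K
  let e : Gal(K/k) → ZMod 2 := fun g => if g w = w then 0 else 1
  have he : ∀ g, i (e g) = g w - w := fun g => by
    simp only [e]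
    split_ifs with hg
    · rw [map_zero, hg, sub_self]
    · have h3 : g w ^ 2 + g w + 1 = 0 := by simpa using congrArg g hw
      have h4 : (g w - w) * (g w - w - 1) = 0 := by
        linear_combination h3 - hw + (w ^ 2 + w - g w * w - g w) * h2
      rw [map_one, sub_eq_zero.1 ((mul_eq_zero.1 h4).resolve_left (sub_ne_zero.2 hg))]
  have hg : ∃ g : Gal(K/k), g w ≠ w := by
    by_contra hn
    push Not at hn
    obtain ⟨x, hx⟩ := IntermediateField.mem_bot.1 ((InfiniteGalois.mem_bot_iff_fixed w).2 hn)
    exact h x ((algebraMap k K).injective (by simpa [hx] using hw))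
  obtain ⟨g, hg⟩ := hg
  have := (sm_KRep (k := k) (K := K)).disc
  refine not_van e (((IsLocallyConstant.iff_continuous _).2
    ((sm_KRep (k := k) (K := K)).cont w)).comp fun v : K => if v = w then (0 : ZMod 2) else 1)
    (fun g h => i.injective ?_) (g := g) (by simp [e, hg])
  have h5 : g (i (e h)) = i (e h) := by
    simp only [e]
    split_ifs <;> simp
  rw [map_add, ← h5, he, he, he, map_sub, AlgEquiv.mul_apply]
  ring

end Pool.Agent.Lib.MP_0f87c6_ag
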