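import Pool.Agent.Lib.MP_0f87c6_ag.Coh

/-! Devissage for pro-2 groups. -/

set_option autoImplicit false
set_option linter.unusedSectionVars false

open CategoryTheory TopRep Topology

namespace Pool.Agent.Lib.MP_0f87c6_ag

variable {G : Type} [Group G] [TopologicalSpace G] [IsTopologicalGroup G]

/-- The discrete module attached to an action on an abelian group. -/
noncomputable def mkRep (M : Type) [AddCommGroup M] (σ : G → M →+ M) (h1 : ∀ a, σ 1 a = a)
    (h2 : ∀ g h a, σ (g * h) a = σ g (σ h a)) : TopRep.{0} ℤ G :=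
  letI : TopologicalSpace M := ⊥
  haveI : DiscreteTopology M := ⟨rfl⟩
  TopRep.of (X := M) (.ofMonoidHom
    { toFun := fun g => ⟨(σ g).toIntLinearMap, continuous_of_discreteTopology⟩
      map_one' := ContinuousLinearMap.ext h1
      map_mul' := fun g h => ContinuousLinearMap.ext (h2 g h) })

lemma mkRep_disc (M : Type) [AddCommGroup M] (σ : G → M →+ M) (h1 : ∀ a, σ 1 a = a)
    (h2 : ∀ g h a, σ (g * h) a = σ g (σ h a)) : DiscreteTopology (mkRep M σ h1 h2) := ⟨rfl⟩

/-- The trivial module of order two. -/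
noncomputable def T2 (G : Type) [Group G] [TopologicalSpace G] [IsTopologicalGroup G] :
    TopRep.{0} ℤ G := mkRep (ZMod 2) (fun _ => AddMonoidHom.id _) (fun _ => rfl) fun _ _ _ => rfl

lemma sm_T2 : Sm (T2 G) := ⟨mkRep_disc .., fun a => by
  have : {g : G | (T2 G).ρ g a = a} = Set.univ := Set.eq_univ_of_forall fun _ => rfl
  rw [this]; exact isOpen_univ⟩

/-- The action as additive maps. -/
noncomputable def act (A : TopRep.{0} ℤ G) (g : G) : A →+ A where
  toFun := A.ρ g
  map_zero' := map_zero _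
  map_add' := map_add _

lemma act_apply (A : TopRep.{0} ℤ G) (g : G) (a : A) : act A g a = A.ρ g a := rfl

section sub

variable (A : TopRep.{0} ℤ G) (B : AddSubgroup A) (hB : ∀ g, ∀ a ∈ B, A.ρ g a ∈ B)

/-- Submodules. -/
noncomputable def subRep : TopRep.{0} ℤ G :=
  mkRep B (fun g => ((act A g).comp B.subtype).codRestrict B fun a => hB g a a.2)
    (fun a => Subtype.ext (rho_one a.1)) fun g h a => Subtype.ext (rho_mul g h a.1)

/-- Quotients. -/
noncomputable def quoRep : TopRep.{0} ℤ G :=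
  mkRep (A ⧸ B) (fun g => QuotientAddGroup.map B B (act A g) fun a ha => hB g a ha)
    (fun a => QuotientAddGroup.induction_on a fun a => congrArg QuotientAddGroup.mk (rho_one a))
    fun g h a => QuotientAddGroup.induction_on a fun a =>
      congrArg QuotientAddGroup.mk (rho_mul g h a)

variable {A}

lemma Sm.sub (h : Sm A) : Sm (subRep A B hB) := ⟨mkRep_disc .., fun a => by
  have : {g : G | (subRep A B hB).ρ g a = a} = {g : G | A.ρ g (show B from a).1 = (show B from a).1} :=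
    Set.ext fun _ => Subtype.ext_iff
  rw [this]; exact h.opn _⟩

lemma Sm.quo (h : Sm A) : Sm (quoRep A B hB) := ⟨mkRep_disc .., fun a => by
  obtain ⟨a, rfl⟩ := QuotientAddGroup.mk_surjective (show A ⧸ B from a)
  have := h.disc
  exact (isOpen_discrete {v : A | (v : A ⧸ B) = a}).preimage (h.cont a)⟩

end sub

/-- Every neighbourhood of the identity contains the kernel of a map onto a finite 2-group. -/
def P2 (G : Type) [Group G] [TopologicalSpace G] : Prop :=
  ∀ U ∈ 𝓝 (1 : G), ∃ (Γ : Type) (_ : Group Γ) (_ : Fintype Γ) (q : G →* Γ) (s : ℕ),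
    Function.Surjective q ∧ (∀ g, q g = 1 → g ∈ U) ∧ Fintype.card Γ = 2 ^ s

variable [CompactSpace G] {A : TopRep.{0} ℤ G}

lemma van_odd (hG : P2 G) (hA : Sm A) [Finite A] (ho : Odd (Nat.card A)) (n : ℕ) : Van A n := by
  refine van_of_avg hA (fun U hU => ?_) n
  obtain ⟨Γ, _, _, q, s, h1, h2, h3⟩ := hG U hU
  obtain ⟨u, v, huv⟩ : IsCoprime ((2 ^ s : ℕ) : ℤ) (Nat.card A : ℤ) :=
    Nat.isCoprime_iff_coprime.2 (Nat.Coprime.pow_left s ((Nat.coprime_two_left).2 ho))
  refine ⟨Γ, inferInstance, inferInstance, q, fun _ => zsmulAddGroupHom u, h1, h2,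
    fun τ _ a => (map_zsmul (act A τ) u a).symm, fun a => ?_⟩
  have h4 : (Nat.card A : ℤ) • a = 0 := by rw [natCast_zsmul]; exact card_nsmul_eq_zero'
  rw [Finset.sum_const, Finset.card_univ, h3, zsmulAddGroupHom_apply, ← natCast_zsmul, ← mul_zsmul,
    mul_comm, eq_sub_of_add_eq huv, sub_zsmul, mul_zsmul, h4]
  simp

lemma exists_fixed (hG : P2 G) (hA : Sm A) [Finite A] (he : 2 ∣ Nat.card A) :
    ∃ a : A, a ≠ 0 ∧ 2 • a = 0 ∧ Inv A a := by
  obtain ⟨Γ, _, _, q, s, h1, h2, h3⟩ := hG (⋂ a : A, {g | A.ρ g a = a})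
    ((isOpen_iInter_of_finite hA.opn).mem_nhds (Set.mem_iInter.2 fun a => rho_one a))
  let B : AddSubgroup A := (nsmulAddMonoidHom (α := A) 2).ker
  have hB : ∀ g, ∀ a ∈ B, A.ρ g a ∈ B := fun g a ha => by
    change 2 • act A g a = 0
    rw [← map_nsmul, show 2 • a = 0 from ha, map_zero]
  let _ : MulAction G B :=
    { smul := fun g a => ⟨A.ρ g a, hB g a a.2⟩
      one_smul := fun a => Subtype.ext (rho_one a.1)
      mul_smul := fun g h a => Subtype.ext (rho_mul g h a.1) }
  have hP : IsPGroup 2 (MulAction.toPermHom G B).range := by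
    rintro ⟨_, g, rfl⟩
    refine ⟨s, Subtype.ext (Equiv.ext fun a => Subtype.ext ?_)⟩
    have : g ^ 2 ^ s ∈ ⋂ a : A, {g | A.ρ g a = a} := h2 _ (by rw [map_pow, ← h3, pow_card_eq_one])
    rw [Subgroup.coe_pow, ← map_pow]
    exact Set.mem_iInter.1 this a.1
  have h4 : 2 ∣ Nat.card B := by
    obtain ⟨a, ha⟩ := exists_prime_addOrderOf_dvd_card' 2 he
    have hm : a ∈ B := by
      change 2 • a = 0
      rw [← ha]; exact addOrderOf_nsmul_eq_zero a
    rw [← ha, ← AddSubgroup.addOrderOf_mk a hm]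
    exact addOrderOf_dvd_natCard _
  obtain ⟨b, hb, h0⟩ := hP.exists_fixed_point_of_prime_dvd_card_of_fixed_point B h4 (a := 0)
    (by rintro ⟨_, g, rfl⟩; exact Subtype.ext (map_zero (act A g)))
  exact ⟨b.1, fun e => h0 (Subtype.ext e.symm), b.2,
    fun g => congrArg Subtype.val (hb ⟨_, g, rfl⟩)⟩

lemma van_finite (hG : P2 G) {n : ℕ} (hT : Van (T2 G) n) (m : ℕ) :
    ∀ A : TopRep.{0} ℤ G, Sm A → Finite A → Nat.card A = m → Van A n := by
  induction m using Nat.strong_induction_on with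
  | _ m ih =>
  intro A hA _ hm
  rcases Nat.even_or_odd (Nat.card A) with he | ho
  swap
  · exact van_odd hG hA ho n
  obtain ⟨a, h0, h2, ha⟩ := exists_fixed hG hA he.two_dvd
  let i : ZMod 2 →+ A := ZMod.lift 2 ⟨zmultiplesHom A a, by
    rw [zmultiplesHom_apply, natCast_zsmul, h2]⟩
  have i1 : i 1 = a := by
    have := ZMod.lift_coe 2 ⟨zmultiplesHom A a, by rw [zmultiplesHom_apply, natCast_zsmul, h2]⟩ 1
    simpa using this
  have hc : ∀ z : ZMod 2, z = 0 ∨ z = 1 := by decide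
  have hi : ∀ g z, A.ρ g (i z) = i z := fun g z => by
    rcases hc z with rfl | rfl
    · rw [map_zero, map_zero]
    · rw [i1, ha g]
  have hB : ∀ g, ∀ b ∈ i.range, A.ρ g b ∈ i.range := by
    rintro g _ ⟨z, rfl⟩
    exact ⟨z, (hi g z).symm⟩
  have := (sm_T2 (G := G)).disc
  have := hA.disc
  have hs : SES (A := T2 G) (B := A) (C := quoRep A i.range hB)
      ⟨i, continuous_of_discreteTopology⟩
      ⟨QuotientAddGroup.mk' i.range, continuous_of_discreteTopology⟩ :=
    ⟨hA, hA.quo _ _, ⟨map_sub i, fun g z => (hi g z).symm⟩,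
      ⟨map_sub (QuotientAddGroup.mk' i.range), fun _ _ => rfl⟩,
      (injective_iff_map_eq_zero i).2 fun z hz => (hc z).resolve_right fun e =>
        h0 (by rw [← i1, ← e, hz]),
      QuotientAddGroup.mk_surjective, fun b => QuotientAddGroup.eq_zero_iff b⟩
  refine hs.mid hT (ih _ ?_ _ (hA.quo _ _) (inferInstanceAs (Finite (A ⧸ i.range))) rfl)
  change Nat.card (A ⧸ i.range) < m
  have h3 : 1 < Nat.card i.range := Finite.one_lt_card_iff_nontrivial.2
    ⟨⟨a, 1, i1⟩, 0, fun e => h0 (congrArg Subtype.val e)⟩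
  have h4 : 0 < Nat.card (A ⧸ i.range) := Nat.card_pos
  rw [← hm, AddSubgroup.card_eq_card_quotient_mul_card_addSubgroup i.range]
  nlinarith

lemma van_torsion (hG : P2 G) {n : ℕ} (hT : Van (T2 G) n) (hA : Sm A)
    (ht : IsAddTorsion A) : Van A n := by
  intro x hx h0
  obtain ⟨S, hS, hx'⟩ := exists_in hA _ x
  have := hA.disc
  let S' : Set A := ⋃ a ∈ S, Set.range fun g => A.ρ g a
  have hS' : S'.Finite := hS.biUnion fun a _ => finite_range ⟨_, hA.cont a⟩
  let B := AddSubgroup.closure S'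
  have hB : ∀ g, ∀ a ∈ B, A.ρ g a ∈ B := fun g a ha => by
    have : B ≤ B.comap (act A g) := (AddSubgroup.closure_le _).2 fun v hv => by
      obtain ⟨a, ha, h, rfl⟩ := Set.mem_iUnion₂.1 hv
      exact AddSubgroup.subset_closure (Set.mem_iUnion₂.2 ⟨a, ha, g * h, rho_mul g h a⟩)
    exact this ha
  have hf : Finite B := by
    have : Finite S' := hS'
    have : AddGroup.FG B := inferInstance
    exact AddCommGroup.finite_of_fg_isAddTorsion B (ht.addSubgroup B)
  have := (hA.sub B hB).disc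
  refine van_of_range (A := subRep A B hB) (i := ⟨B.subtype, continuous_of_discreteTopology⟩) hA
    ⟨map_sub B.subtype, fun _ _ => rfl⟩ Subtype.val_injective
    (van_finite hG hT _ _ (hA.sub B hB) hf rfl) hx h0 (hx'.mono fun a ha => ?_)
  exact ⟨⟨a, AddSubgroup.subset_closure (Set.mem_iUnion₂.2 ⟨a, ha, 1, rho_one a⟩)⟩, rfl⟩

lemma not_van (e : G → ZMod 2) (hc : IsLocallyConstant e) (he : ∀ g h, e (g * h) = e g + e h)
    {g : G} (hg : e g ≠ 0) : ¬Van (T2 G) 0 := by
  intro h
  let y : resolutionX (T2 G) 1 := (⟨e, hc.continuous⟩ : C(G, T2 G))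
  have h1 : e 1 = 0 := by simpa using he 1 1
  obtain ⟨w, hw, e'⟩ := h (dd _ 1 y) (fun τ => ev_ext fun u => ev_ext fun v => by
    change e (τ⁻¹ * v) - e (τ⁻¹ * u) = e v - e u
    rw [he, he]; ring) (dd_dd y)
  have h2 : ev w g - ev w 1 = (e g - e 1 : ZMod 2) := congrArg (fun z => ev (ev z 1) g) e'
  have h3 : ev w g = ev w 1 := (congrArg (ev w) (mul_one g).symm).trans (hw.ev g 1)
  rw [h3, sub_self, h1, sub_zero] at h2
  exact hg h2.symm

end Pool.Agent.Lib.MP_0f87c6_ag
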